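import Pool.Agent.J4H45.BP.Final

/-!
# An oracle relative to which `BPP_path` has no complete sets

Definitions (in `Pool/Agent/J4H45/BP/Defs.lean`, `Pool/Agent/H628R3/RO/Defs.lean` and
`Pool/Agent/NPC/Defs.lean`):

* an `Oracle` is a set of bit strings (a function from strings to booleans);
* `NMach`: nondeterministic polynomial-time oracle machines, given by the next action as a
  function (computed in polynomial time by a Turing machine of Mathlib) of the input and of the
  answers and nondeterministic choices made so far on the path; `acc`, `rej`, `total` are the
  numbers of accepting, rejecting and all computation paths;
* `BPPpath A L`: some machine accepts the members of `L` on more than three quarters of its paths
  and rejects the other strings on more than three quarters of its paths;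
* `IsComplete A C`: `C` is in this class and every language of the class reduces to `C` by a
  polynomial-time many-one reduction without oracle; `IsCompleteRel A C`: the same with
  reductions which may query the oracle.

Idea.  For each machine `M` the language of all `x` such that more than three quarters of the
strings of the region of `M` for the length of `x` are in the oracle. The oracle is built in
stages. For a machine `M` and a reduction `F` take a long input and freeze the strings queried by
`F` on it; the query lemma (`query_lemma`) shows that the region can be filled so that either `M`
violates the promise, or the region satisfies its promise and `M` gives the wrong answer.

The query lemma says that a machine with few queries on each path can not satisfy its promise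
everywhere and recognise whether less than one quarter or more than three quarters of the strings
of a region are in the oracle. Its proof: give the strings of the region the values of independent
coins with bias `p`. The expected number of paths, with a discount for every query, is a potential
which can be raised only few times by fixing few strings; when it can not be raised any more, the
numbers of accepting and of rejecting paths are concentrated around their means, also after fixing
few more strings, so one of the two robustly dominates the other. For the bias near `0` the
rejecting paths dominate, for the bias near `1` the accepting ones; a binary search over a grid of
biases, fixing few strings in each step, finds two neighbouring biases with different dominating
kinds, but neighbouring biases give nearly the same weight to every path.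
-/

set_option autoImplicit false

namespace Pool.Agent.Results.MP_436e6e_lc.NoCompleteSets

open Pool.Agent.H628R3.RO Pool.Agent.J4H45.BP

theorem result : ∃ A : Oracle, (¬ ∃ C : Set (List Bool), IsComplete A C) ∧
    ¬ ∃ C : Set (List Bool), IsCompleteRel A C := no_complete

end Pool.Agent.Results.MP_436e6e_lc.NoCompleteSets
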